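import Mathlib
import Pool.Agent.MP_f88521_co.Mg.Examples

namespace Pool.Agent.Results.MP_f88521_co.Classification

/-- For `k ≥ 1` and `1 ≤ r ≤ 4`, the number `5 k - r` is the least `N` such that every two-colouring
of the edges of `K_N` (a graph `G` and its complement) has a monochromatic copy of a tree on
`4 k - r + 1` vertices of diameter at most `3` exactly for eleven values of `4 k - r + 1`. -/
theorem result (k r : ℕ) (hk : 1 ≤ k) (hr1 : 1 ≤ r) (hr4 : r ≤ 4) :
    IsLeast {N : ℕ | ∀ G : SimpleGraph (Fin N), ∃ T : SimpleGraph (Fin (4 * k - r + 1)),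
        T.IsTree ∧ T.ediam ≤ 3 ∧ (T.IsContained G ∨ T.IsContained Gᶜ)} (5 * k - r) ↔
      4 * k - r + 1 ∈ ({1, 2, 3, 4, 5, 6, 7, 9, 10, 13, 17} : Finset ℕ) :=
  Pool.Agent.MP_f88521_co.classification k r hk hr1 hr4

end Pool.Agent.Results.MP_f88521_co.Classification
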